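import Pool.Agent.Lib.H68S.F05

/-!
# Product sets in SO(3): the deficit inequality, up to a constant

For all nonempty open sets `A`, `B` of rotations with `v = 1 - μ(AB) > 0`,
`μ(A) + μ(B) + v + (1/240) √(μ(A) μ(B) v) ≤ 1`. The two-set form of the question of Jing, Tran and
Zhang is this inequality with `2` in place of `1/240`. The proof is in `Pool/Agent/Lib/H68S`.
-/

open Pointwise MeasureTheory

namespace Pool.Agent.Results.MP_af943b_al.DeficitInequality

/-- For the Haar probability measure `μ` on `SO(3)` and all nonempty open sets `A`, `B` whose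
product set does not have full measure,
`μ(A) + μ(B) + v + (1/240) √(μ(A) μ(B) v) ≤ 1`, where `v = 1 - μ(AB)`. -/
theorem result :
    ∀ [MeasurableSpace ↥(Matrix.specialOrthogonalGroup (Fin 3) ℝ)]
      [BorelSpace ↥(Matrix.specialOrthogonalGroup (Fin 3) ℝ)]
      (μ : Measure ↥(Matrix.specialOrthogonalGroup (Fin 3) ℝ)),
      μ.IsHaarMeasure → IsProbabilityMeasure μ →
      ∀ A B : Set ↥(Matrix.specialOrthogonalGroup (Fin 3) ℝ), IsOpen A → IsOpen B →
        A.Nonempty → B.Nonempty → μ.real (A * B) < 1 →
        μ.real A + μ.real B + (1 - μ.real (A * B)) +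
          1 / 240 * √(μ.real A * μ.real B * (1 - μ.real (A * B))) ≤ 1 := by
  intro _ _ μ hμ hp A B hA hB hA0 hB0 h
  have := Pool.Agent.Lib.H68S.main_so3 μ hμ hp hA hB hA0 hB0 h
  linarith

end Pool.Agent.Results.MP_af943b_al.DeficitInequality
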