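import Mathlib
import Pool.Agent.Lib.H68L.Z02

/-!
# A sharp product set inequality inside balls of SO(3)

If the open sets `A` and `B` of rotations lie in balls of radius `r` and `s` (for the rotation
angle), `r + s ≤ π`, and `c = cos ((r + s)/2)`, then
`μ(AB) ≥ c (μ(A)^(1/3) + μ(B)^(1/3))^3 + (1 - c) (√μ(A) + √μ(B))^2`. In particular
`μ(AA) ≥ 4 (1 + cos r) μ(A)` for every open set inside a ball of radius `r ≤ π/2`. The proof, by
optimal transport, is in `Pool/Agent/Lib/H68L`.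
-/

open Pointwise MeasureTheory

namespace Pool.Agent.Results.MP_af943b_al.LocalBrunnMinkowski

/-- The ball of radius `r` about `g` is the set of `x` with `1 + 2 cos r < trace (g⁻¹ x)`, that
is: the rotation `g⁻¹ x` has an angle less than `r`. -/
theorem result :
    ∀ [MeasurableSpace ↥(Matrix.specialOrthogonalGroup (Fin 3) ℝ)]
      [BorelSpace ↥(Matrix.specialOrthogonalGroup (Fin 3) ℝ)]
      (μ : Measure ↥(Matrix.specialOrthogonalGroup (Fin 3) ℝ)),
      μ.IsHaarMeasure → IsProbabilityMeasure μ →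
      ∀ A B : Set ↥(Matrix.specialOrthogonalGroup (Fin 3) ℝ), IsOpen A → IsOpen B →
        A.Nonempty → B.Nonempty →
      ∀ (g h : ↥(Matrix.specialOrthogonalGroup (Fin 3) ℝ)) (r s : ℝ), 0 < r → 0 < s →
        r + s ≤ Real.pi →
        (∀ x ∈ A, 1 + 2 * Real.cos r < (g⁻¹ * x).1.trace) →
        (∀ y ∈ B, 1 + 2 * Real.cos s < (h⁻¹ * y).1.trace) →
        Real.cos ((r + s) / 2) * (μ.real A ^ (1 / 3 : ℝ) + μ.real B ^ (1 / 3 : ℝ)) ^ 3 +
          (1 - Real.cos ((r + s) / 2)) * (√(μ.real A) + √(μ.real B)) ^ 2 ≤ μ.real (A * B) := by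
  intro _ _ μ hμ hp A B hA hB hA0 hB0 g h r s hr hs hrs hAr hBs
  exact Pool.Agent.Lib.H68L.z02 μ hμ hp hA hB hA0 hB0 g h hr hs hrs hAr hBs

end Pool.Agent.Results.MP_af943b_al.LocalBrunnMinkowski
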