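import Mathlib
import Pool.Agent.Lib.H68L.N08

/-!
# The product set inequality for sets covered by separated balls of SO(3)

If an open set `A` of rotations is covered by balls of radius `r ≤ π/2` such that the balls of
radius `2r` about the same centres are pairwise disjoint, then `μ(AA) ≥ 4 (1 + cos r) μ(A)`. The
proof is in `Pool/Agent/Lib/H68L`.
-/

open Pointwise MeasureTheory

namespace Pool.Agent.Results.MP_af943b_al.SeparatedBalls

/-- The ball of radius `t` about `g` is the set of `x` with `1 + 2 cos t < trace (g⁻¹ x)`, that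
is: the rotation `g⁻¹ x` has an angle less than `t`. -/
theorem result :
    ∀ [MeasurableSpace ↥(Matrix.specialOrthogonalGroup (Fin 3) ℝ)]
      [BorelSpace ↥(Matrix.specialOrthogonalGroup (Fin 3) ℝ)]
      (μ : Measure ↥(Matrix.specialOrthogonalGroup (Fin 3) ℝ)),
      μ.IsHaarMeasure → IsProbabilityMeasure μ →
      ∀ A : Set ↥(Matrix.specialOrthogonalGroup (Fin 3) ℝ), IsOpen A →
      ∀ r : ℝ, 0 < r → r ≤ Real.pi / 2 →
      ∀ F : Finset ↥(Matrix.specialOrthogonalGroup (Fin 3) ℝ),
        (∀ g ∈ F, ∀ h ∈ F, g ≠ h →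
          Disjoint {x : ↥(Matrix.specialOrthogonalGroup (Fin 3) ℝ) |
              1 + 2 * Real.cos (2 * r) < (g⁻¹ * x).1.trace}
            {x : ↥(Matrix.specialOrthogonalGroup (Fin 3) ℝ) |
              1 + 2 * Real.cos (2 * r) < (h⁻¹ * x).1.trace}) →
        (∀ x ∈ A, ∃ g ∈ F, 1 + 2 * Real.cos r < (g⁻¹ * x).1.trace) →
        4 * (1 + Real.cos r) * μ.real A ≤ μ.real (A * A) := by
  intro _ _ μ hμ hp A hA r hr hr1 F hF hAF
  exact Pool.Agent.Lib.H68L.n08 μ hμ hp hA hr hr1 F hF hAF

end Pool.Agent.Results.MP_af943b_al.SeparatedBalls
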