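import Mathlib
import Pool.Agent.Lib.H68L.N07

/-!
# Counterexamples are spread over all scales

An open set `A` of rotations with `μ(AA) ≤ 4 μ(A)` (for example a counterexample to the question of
Jing, Tran and Zhang) satisfies `μ(A ∩ ball (g, (3/5) 10^(-n))) ≤ 2^(-n) μ(A)` for all rotations `g`
and all `n`. The proof is in `Pool/Agent/Lib/H68L`.
-/

open Pointwise MeasureTheory

namespace Pool.Agent.Results.MP_af943b_al.SpreadAtAllScales

/-- The ball of radius `t` about `g` is the set of `x` with `1 + 2 cos t < trace (g⁻¹ x)`, that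
is: the rotation `g⁻¹ x` has an angle less than `t`. -/
theorem result :
    ∀ [MeasurableSpace ↥(Matrix.specialOrthogonalGroup (Fin 3) ℝ)]
      [BorelSpace ↥(Matrix.specialOrthogonalGroup (Fin 3) ℝ)]
      (μ : Measure ↥(Matrix.specialOrthogonalGroup (Fin 3) ℝ)),
      μ.IsHaarMeasure → IsProbabilityMeasure μ →
      ∀ A : Set ↥(Matrix.specialOrthogonalGroup (Fin 3) ℝ), IsOpen A →
        μ.real (A * A) ≤ 4 * μ.real A →
      ∀ (n : ℕ) (g : ↥(Matrix.specialOrthogonalGroup (Fin 3) ℝ)),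
        μ.real (A ∩ {x | 1 + 2 * Real.cos (3 / 5 / 10 ^ n) < (g⁻¹ * x).1.trace}) ≤
          μ.real A / 2 ^ n := by
  intro _ _ μ hμ hp A hA hAA n g
  exact Pool.Agent.Lib.H68L.n07 μ hμ hp hA hAA n g

end Pool.Agent.Results.MP_af943b_al.SpreadAtAllScales
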